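import Pool.Agent.N658.TP.Stm4

set_option autoImplicit false

/-! # TP/Free1: bond dimension in terms of the free energy -/

open scoped BigOperators ComplexConjugate Classical InnerProductSpace Matrix ComplexOrder
open scoped Matrix.Norms.L2Operator

noncomputable section

namespace Pool.Agent.N395.TP

open Pool.Agent.Y738.PE Pool.Agent.N658.TP Pool.Agent.N658.TP.A2

theorem reach_mono {d r m f : ℕ} [NeZero m] {ρ : (BConf d r → BConf d r → ℂ) → ℂ} {η η' : ℝ}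
    (h : Reach d r m f ρ η) (hη : η ≤ η') : Reach d r m f ρ η' := by
  intro B hB hC
  obtain ⟨C, h1, h2⟩ := h B hB hC
  refine ⟨C, h1, h2.trans ?_⟩
  have : (0 : ℝ) ≤ (m : ℝ) ^ 2 := by positivity
  nlinarith

/-- Comparison of the ground energy of large tori with the energies on the torus of side `m`. -/
theorem energy_cmp (hE : StmEnMul) (d q : ℕ) (hd : 2 ≤ d) (hq : 0 < q)
    (h : BConf d q → BConf d q → ℂ) (hh : Herm h) :
    ∃ C : ℝ, 0 < C ∧ ∀ (m : ℕ) [NeZero m], q ≤ m → ∃ L₀ : ℕ, ∀ (L : ℕ) [NeZero L], L₀ ≤ L →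
      ∀ Ψ : Conf d L → ℂ, IsGround h L Ψ → TransInv Ψ → ∀ φ : Conf d m → ℂ, nrm φ = 1 →
        (m : ℝ) ^ 2 * (expec Ψ 0 h).re ≤ en h m φ + C * m := by
  have hEA := Pool.Agent.Y331.PE.t_EnergyA
  have hGE := Pool.Agent.Y932.PE.groundExists
  have hPTI := Pool.Agent.Y328.PE.pepsMain
  have hbox : ∀ {d : ℕ}, 2 ≤ d → ∀ {r : ℕ}, 0 < r → ∀ {ε : ℝ}, 0 < ε → ε ≤ 1 →
    ∃ (L₀ K : ℕ) (A : Fin K → Tensor d (bond d r ε)),
      ∀ (L : ℕ) [NeZero L], L₀ ≤ L → ∀ Ψ : Conf d L → ℂ, nrm Ψ = 1 →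
      (∀ (v : Site L) (B : BConf d r → BConf d r → ℂ), expec Ψ v B = expec Ψ 0 B) →
      ∃ k, ∀ (L' : ℕ) [NeZero L'], L₀ ≤ L' → 0 < nrm (pepsX (A k) L') ∧
        ∀ (u : Site L) (v : Site L') (B : BConf d r → BConf d r → ℂ), Contr B →
          ‖expec (pepsX (A k) L') v B / (nrm (pepsX (A k) L') : ℂ) - expec Ψ u B‖ ≤ ε :=
    fun {_} hd {_} hr {_} hε hε1 => universal_box Pool.Agent.Y978.PE.collapse
      Pool.Agent.Y562.PE.orth Pool.Agent.Y297.PE.factor Pool.Agent.Y65.PE.weights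
      Pool.Agent.Y328.PE.shiftMain Pool.Agent.Y794.PE.exist Pool.Agent.Y794.PE.nonzero
      Pool.Agent.Y65.PE.bound Pool.Agent.Y65.PE.purify Pool.Agent.Y585.PE.net
      Pool.Agent.Y328.PE.pepsMain hd hr hε hε1
  obtain ⟨X, hX⟩ := herm_param h hh
  obtain ⟨C₂, hC₂, hmul⟩ := hE d q hd hq h hh
  refine ⟨C₂ + 1, by linarith, ?_⟩
  intro m _ hqm
  have hm0 : m ≠ 0 := NeZero.ne m
  have hmp : (0 : ℝ) < m := by exact_mod_cast Nat.pos_of_ne_zero hm0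
  obtain ⟨L₀, hL₀⟩ := gd_cauchy hEA hGE hPTI hbox contr_inv hd hq X (1 / (m : ℝ)) (by positivity)
  refine ⟨max L₀ q, ?_⟩
  intro L _ hL Ψ hΨ hTI φ hφ
  have hj : NeZero (m * (L₀ + 1)) := ⟨Nat.mul_ne_zero hm0 (by omega)⟩
  obtain ⟨ψ, hψ, hψ2⟩ := hmul m (L₀ + 1) hqm φ hφ
  have hmj : m * (L₀ + 1) ≥ L₀ := by
    have : 1 * (L₀ + 1) ≤ m * (L₀ + 1) := Nat.mul_le_mul_right _ (Nat.pos_of_ne_zero hm0)
    omega
  have hqmj : q ≤ m * (L₀ + 1) := by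
    have : m * 1 ≤ m * (L₀ + 1) := Nat.mul_le_mul_left _ (by omega)
    omega
  obtain ⟨Ψ', hΨ', -⟩ := hGE d q (m * (L₀ + 1)) (by omega) hqmj X
  have hc := hL₀ (m * (L₀ + 1)) L hmj (by omega)
  rw [← hX] at hΨ hψ2 ⊢
  have hTIe := transInv_expec Ψ hΨ.1 hTI
  rw [gd_eq X Ψ hΨ, gd_eq X Ψ' hΨ', hEA.1 d q L (hermOf X) Ψ (fun v => hTIe q v _)] at hc
  have hLp : (0 : ℝ) < (L : ℝ) ^ 2 := by
    have : L ≠ 0 := NeZero.ne L
    positivity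
  rw [mul_div_cancel_left₀ _ hLp.ne'] at hc
  have h1 := (hΨ'.2 ψ hψ).trans hψ2
  have hjp : (0 : ℝ) < ((L₀ + 1 : ℕ) : ℝ) := by positivity
  have h2 : en (hermOf X) (m * (L₀ + 1)) Ψ' / ((m * (L₀ + 1) : ℕ) : ℝ) ^ 2 ≤
      (en (hermOf X) m φ + C₂ * m) / (m : ℝ) ^ 2 := by
    rw [div_le_div_iff₀ (by positivity) (by positivity)]
    have e1 : (((m * (L₀ + 1) : ℕ) : ℝ)) ^ 2 = (m : ℝ) ^ 2 * ((L₀ + 1 : ℕ) : ℝ) ^ 2 := by
      push_cast; ring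
    rw [e1]
    have h3 := mul_le_mul_of_nonneg_right h1 (show (0 : ℝ) ≤ (m : ℝ) ^ 2 by positivity)
    calc _ ≤ _ := h3
      _ = _ := by ring
  have h4 : (expec Ψ 0 (hermOf X)).re ≤ (en (hermOf X) m φ + C₂ * m) / (m : ℝ) ^ 2 + 1 / m := by
    linarith
  have h5 := mul_le_mul_of_nonneg_left h4 (show (0 : ℝ) ≤ (m : ℝ) ^ 2 by positivity)
  refine h5.trans (le_of_eq ?_)
  field_simp
  ring

theorem free1 (hF : StmReachF) (hE : StmEnMul) : StmFree1 := by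
  intro d R' hd h hh R
  obtain ⟨r, hr, hreg⟩ := region_of_box d R
  obtain ⟨c, hc1, hfin⟩ := fin_box pipe' d r hd hr
  obtain ⟨C₁, hC₁, hreach⟩ := hF d r R' (Pool.Agent.TH235.PP.nJ h) hd hr
  have hherm : Herm (fun x y : BConf d (R' + 1) => h x y) := fun σ τ => (hh.apply τ σ).symm
  obtain ⟨C₂, hC₂, hcmp⟩ := energy_cmp hE d (R' + 1) hd (by omega)
    (fun x y : BConf d (R' + 1) => h x y) hherm
  obtain ⟨a, ha⟩ : ∃ a : ℝ, a = 2 * c * (C₁ + 1) := ⟨_, rfl⟩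
  have ha0 : 2 ≤ a := by rw [ha]; nlinarith
  obtain ⟨C, hCdef⟩ : ∃ C : ℝ, C = c + 4 * C₁ * (1 + a * (C₂ + 1)) + 4 * C₁ + 4 * C₁ * a + C₁ * a +
    2 * c + r + (R' + 1) := ⟨_, rfl⟩
  have hr0 : (0 : ℝ) ≤ r := Nat.cast_nonneg r
  have hR0 : (0 : ℝ) ≤ R' := Nat.cast_nonneg R'
  have hc0 : 0 < c := by linarith
  have p1 : 0 ≤ 4 * C₁ * (1 + a * (C₂ + 1)) := by positivity
  have p2 : 0 ≤ 4 * C₁ * a := by positivity
  have p3 : 0 ≤ C₁ * a := by positivity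
  have hC1 : 1 ≤ C := by rw [hCdef]; linarith
  refine ⟨C, by linarith, ?_⟩
  intro ε hε hε1 β hβ n _ hm κ hκ hfree
  obtain ⟨φ, hφ, hφ2⟩ := hfree
  have hn0 : 2 * n ≠ 0 := NeZero.ne (2 * n)
  obtain ⟨m, hmdef⟩ : ∃ m : ℝ, m = ((2 * n : ℕ) : ℝ) := ⟨_, rfl⟩
  have hm1 : 1 ≤ m := by
    rw [hmdef]
    exact_mod_cast Nat.one_le_iff_ne_zero.2 hn0
  rw [← hmdef] at hm
  -- consequences of the lower bound for `m`
  have hmC : C * (1 + β) ≤ m * ε := by rwa [div_le_iff₀ hε] at hm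
  have hmC2 : C ≤ m := by nlinarith
  have hqm : R' + 1 ≤ 2 * n := by
    have : ((R' + 1 : ℕ) : ℝ) ≤ ((2 * n : ℕ) : ℝ) := by
      rw [← hmdef]
      push_cast
      linarith
    exact_mod_cast this
  obtain ⟨L₀, hL₀⟩ := hcmp (2 * n) hqm
  refine ⟨max (max L₀ (2 * n)) r, ?_⟩
  intro L _ hL Ψ hΨ hTI
  have hTIe := transInv_expec Ψ hΨ.1 hTI
  have hen := hL₀ L (by omega) Ψ hΨ hTI φ hφ
  rw [← hmdef] at hen hφ2
  -- the parameters
  obtain ⟨ε₁, hε₁⟩ : ∃ ε₁ : ℝ, ε₁ = ε / a := ⟨_, rfl⟩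
  have hε₁0 : 0 < ε₁ := by rw [hε₁]; positivity
  have hε₁1 : ε₁ ≤ 1 := by
    rw [hε₁, div_le_one (by linarith)]; linarith
  obtain ⟨κ₁, hκ₁⟩ : ∃ κ₁ : ℝ, κ₁ = κ + C₂ * β / m := ⟨_, rfl⟩
  have hκ₁0 : 0 ≤ κ₁ := by rw [hκ₁]; positivity
  have hcond : C₁ * (1 + β) / ε₁ ≤ ((2 * n : ℕ) : ℝ) := by
    rw [← hmdef, div_le_iff₀ hε₁0, hε₁, ← mul_div_assoc, le_div_iff₀ (by linarith)]
    have : C₁ * a * (1 + β) ≤ C * (1 + β) := by
      refine mul_le_mul_of_nonneg_right ?_ (by linarith)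
      rw [hCdef]; linarith
    linarith
  have hZ : Real.log (NormedSpace.exp (((-β : ℝ) : ℂ) • Pool.Agent.TH235.PP.ham h (2 * n))).trace.re +
      β * (((2 * n : ℕ) : ℝ) ^ 2 * (expec Ψ 0 (fun x y => h x y)).re) ≤
      κ₁ * ((2 * n : ℕ) : ℝ) ^ 2 := by
    rw [← hmdef]
    have h1 := mul_le_mul_of_nonneg_left hen hβ
    have e1 : κ₁ * m ^ 2 = κ * m ^ 2 + β * (C₂ * m) := by
      rw [hκ₁]; field_simp
    rw [e1]
    linarith
  obtain ⟨f, hf, hR⟩ := hreach n L (by omega) ε₁ hε₁0 hε₁1 β hβ hcond Ψ hΨ.1 hTIe h hh le_rfl κ₁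
    hκ₁0 hZ
  rw [← hmdef] at hf
  have hη : C₁ * ε₁ ≤ ε / (2 * c) := by
    rw [hε₁, ha, ← mul_div_assoc, div_le_div_iff₀ (by positivity) (by positivity)]
    nlinarith [mul_pos hε hc0]
  have hc3 : 2 * c / ε ≤ ((2 * n : ℕ) : ℝ) := by
    rw [← hmdef, div_le_iff₀ hε]
    have : 2 * c ≤ C := by rw [hCdef]; linarith
    nlinarith
  obtain ⟨D, A, hD, hA⟩ := hfin ε hε hε1 (2 * n) f L hc3 (by omega) _ hf Ψ hΨ.1
    (reach_mono hR hη)
  rw [← hmdef] at hD hA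
  refine ⟨D, A, hD.trans (Real.exp_le_exp.2 ?_), ?_⟩
  · rw [← hmdef]
    have hlog : 0 ≤ Real.log m := Real.log_nonneg hm1
    have hbm : β / (m * ε) ≤ 1 := by
      rw [div_le_one (by positivity)]
      nlinarith
    have e2 : κ₁ / ε₁ = a * (κ / ε + C₂ * (β / (m * ε))) := by
      rw [hκ₁, hε₁]; field_simp
    have hκε : 0 ≤ κ / ε := by positivity
    have h3 : κ₁ / ε₁ ≤ a * (κ / ε + C₂) := by
      rw [e2]
      refine mul_le_mul_of_nonneg_left ?_ (by linarith)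
      have := mul_le_mul_of_nonneg_left hbm hC₂.le
      linarith
    have h4 : c + 4 * (C₁ * (1 + β + κ₁ / ε₁)) ≤ C * (1 + β + κ / ε) := by
      have h5 : 4 * (C₁ * (1 + β + κ₁ / ε₁)) ≤ 4 * (C₁ * (1 + β + a * (κ / ε + C₂))) := by
        have := mul_le_mul_of_nonneg_left h3 hC₁.le
        linarith
      have h6 : 4 * (C₁ * (1 + β + a * (κ / ε + C₂))) =
          4 * C₁ * (1 + a * C₂) + 4 * C₁ * β + 4 * C₁ * a * (κ / ε) := by ring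
      have h7 : c + 4 * C₁ * (1 + a * C₂) ≤ C := by
        have e3 : 4 * C₁ * (1 + a * (C₂ + 1)) = 4 * C₁ * (1 + a * C₂) + 4 * C₁ * a := by ring
        rw [hCdef, e3]
        linarith
      have h8 : 4 * C₁ * β ≤ C * β := by
        refine mul_le_mul_of_nonneg_right ?_ hβ
        rw [hCdef]; linarith
      have h9 : 4 * C₁ * a * (κ / ε) ≤ C * (κ / ε) := by
        refine mul_le_mul_of_nonneg_right ?_ hκε
        rw [hCdef]; linarith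
      nlinarith
    calc c * Real.log m + 4 * (C₁ * (1 + β + κ₁ / ε₁) * Real.log m)
        = (c + 4 * (C₁ * (1 + β + κ₁ / ε₁))) * Real.log m := by ring
      _ ≤ C * (1 + β + κ / ε) * Real.log m := mul_le_mul_of_nonneg_right h4 hlog
  · intro L' _ hL'
    rw [← hmdef] at hL'
    have hm4 : m ≤ m ^ 4 := by
      calc m = m ^ 1 := (pow_one m).symm
        _ ≤ m ^ 4 := pow_le_pow_right₀ hm1 (by norm_num)
    refine hreg D L A Ψ (c * m ^ 4) ε (by omega) ?_ hΨ.1 hTIe hA L' (le_trans ?_ hL')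
    · have h1 : (r : ℝ) ≤ m := by
        have : (r : ℝ) ≤ C := by rw [hCdef]; linarith
        linarith
      have h2 : m ^ 4 ≤ c * m ^ 4 := by
        have : (0 : ℝ) ≤ m ^ 4 := by positivity
        nlinarith
      linarith
    · refine mul_le_mul_of_nonneg_right ?_ (by positivity)
      rw [hCdef]; linarith

end Pool.Agent.N395.TP
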